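import Pool.Agent.MP_3aea93_al.H75.Main
import Pool.Agent.MP_3aea93_al.H75.Ctx
import Pool.Agent.MP_3aea93_al.H75.Lit
import Pool.Agent.MP_3aea93_al.H75.Glue
import Pool.Agent.MP_3aea93_al.H75.Ext
import Pool.Agent.MP_3aea93_al.H75.Perf
import Pool.Agent.MP_3aea93_al.H75.G0
import Pool.Agent.MP_3aea93_al.H75.Frag
import Pool.Agent.MP_3aea93_al.H75.Norm
import Pool.Agent.MP_3aea93_al.H75.FP
import Pool.Agent.MP_3aea93_al.H75.Lift
import Pool.Agent.MP_3aea93_al.H75.Many

/-!
Every action of `T(2,3)` on the circle by diffeomorphisms of class C1 is trivial; the same holds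
for all Thompson-Stein groups of rank at least two with `gcd (n i - 1) = 1`.
-/

set_option autoImplicit false

namespace Pool.Agent.Results.MP_3aea93_al.NoC1Action

open Pool.Agent.MP_3aea93_al.H75

theorem result {k : ℕ} (n : Fin k → ℕ) (hk : 2 ≤ k) (hn : ∀ i, 1 < n i)
    (hi : LinearIndependent ℤ fun i => Real.log (n i))
    (hg : (Finset.univ.gcd fun i => n i - 1) = 1) (ρ : TS n →* Equiv.Perm UnitAddCircle)
    (hρ : ∀ g, IsC1 (ρ g)) (g : TS n) : ρ g = 1 :=
  have hE := rowE rowGlue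
  have hX := rowExt hE
  have hG := rowG0 rowGlue rowPer (rowH0 rowGlue (rowPc rowGlue hE))
  have hN := rowGen hX rowPer
  final rowCtx rowLit (rowMain hG (rowCC hX rowPer) (rowTwo hX rowPer hN) (rowNorm hX rowPer hG hN)
    (rowSq hG hN) rowFP rowLift rowTors (rowMany hE rowPer) (rowOne rowGlue hE rowPer))
    n hk hn hi hg ρ hρ g

/-- The hypotheses hold for the tuple `(2, 3)`. -/
theorem two_three (ρ : TS ![2, 3] →* Equiv.Perm UnitAddCircle) (hρ : ∀ g, IsC1 (ρ g))
    (g : TS ![2, 3]) : ρ g = 1 := by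
  refine result ![2, 3] le_rfl (by decide) ?_ (by decide) ρ hρ g
  have h0 : (fun i : Fin 2 => Real.log ((![2, 3] : Fin 2 → ℕ) i)) = ![Real.log 2, Real.log 3] := by
    funext i; fin_cases i <;> simp
  rw [h0, LinearIndependent.pair_iff]
  intro s t h
  have h1 : Real.log (2 ^ s * 3 ^ t) = 0 := by
    rw [Real.log_mul (by positivity) (by positivity), Real.log_zpow, Real.log_zpow]
    simpa using h
  have h2 : (2 : ℝ) ^ s * 3 ^ t = 1 := Real.eq_one_of_pos_of_log_eq_zero (by positivity) h1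
  have h3 : (2 : ℚ) ^ s * 3 ^ t = 1 := by
    apply Rat.cast_injective (α := ℝ)
    push_cast
    exact h2
  have : Fact (Nat.Prime 2) := ⟨by norm_num⟩
  have h4 := congrArg (padicNorm 2) h3
  have h5 : padicNorm 2 3 = 1 := by
    have := (padicNorm.nat_eq_one_iff (p := 2) 3).2 (by norm_num)
    exact_mod_cast this
  have h6 : padicNorm 2 2 = 2⁻¹ := by
    have := padicNorm.padicNorm_p_of_prime (p := 2)
    exact_mod_cast this
  have h7 : ∀ (q : ℚ) (z : ℤ), padicNorm 2 (q ^ z) = padicNorm 2 q ^ z := fun q z =>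
    map_zpow₀ (IsAbsoluteValue.toAbsoluteValue (padicNorm 2)) q z
  rw [padicNorm.mul, h7, h7, h5, h6, one_zpow, mul_one, padicNorm.one] at h4
  have h8 : s = 0 := (zpow_eq_one_iff_right₀ (by norm_num) (by norm_num)).1 h4
  rw [h8, zpow_zero, one_mul] at h3
  exact ⟨h8, (zpow_eq_one_iff_right₀ (by norm_num) (by norm_num)).1 h3⟩

end Pool.Agent.Results.MP_3aea93_al.NoC1Action
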