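import Pool.Agent.MP_3aea93_al.H72.Conv

/-!
The subsets of a Thompson-Stein group of rank at least two (with `gcd (n i - 1) = 1`) that have
relative property FW are exactly those with a bounded number of breakpoints and finitely many
jumps. In particular the rotations have relative property FW, and the group has no proper
commensurating action.
-/

set_option autoImplicit false

namespace Pool.Agent.Results.MP_3aea93_al.RelFW

open Pool.Agent.MP_3aea93_al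

theorem result {k : ℕ} (n : Fin k → ℕ) (hk : 2 ≤ k) (hn : ∀ i, 1 < n i)
    (hi : LinearIndependent ℤ fun i => Real.log (n i))
    (hg : (Finset.univ.gcd fun i => n i - 1) = 1) (E : Set (H75.TS n)) :
    H72.RelFW (H75.TS n) E ↔ ∃ (N : ℕ) (J : Finset ℝ), ∀ g ∈ E, ∃ F : ℝ ≃o ℝ,
      H75.IsPL (H75.ring n) (H75.slopes n) F ∧ H75.IsLift g F ∧ H72.Jumps N J F :=
  let ⟨_, hA, hL⟩ := H75.rowCtx k n hk hn hi hg
  ⟨H72.conv hn hi hA hL, fun ⟨_, _, h⟩ => H72.direct hk hn hi hA hL h⟩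

/-- The rotations have relative property FW. -/
theorem rotations {k : ℕ} (n : Fin k → ℕ) (hk : 2 ≤ k) (hn : ∀ i, 1 < n i)
    (hi : LinearIndependent ℤ fun i => Real.log (n i))
    (hg : (Finset.univ.gcd fun i => n i - 1) = 1) :
    H72.RelFW (H75.TS n) {g | ∃ c ∈ H75.ring n, H75.IsLift g fun x => x + c} := by
  obtain ⟨C, hA, hL⟩ := H75.rowCtx k n hk hn hi hg
  refine (result n hk hn hi hg _).2 ⟨0, ∅, ?_⟩
  rintro g ⟨c, hc, h⟩
  refine ⟨H75.tr c, hA ▸ hL ▸ (H75.rowLit C _).2 (H75.Ctx.tr_mem_G (by rwa [← hA] at hc)), h, ∅, le_rfl,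
    fun x => ⟨fun _ => ⟨1, c, c, ?_, ?_⟩, fun a => absurd a (Finset.notMem_empty _)⟩⟩
  · exact Filter.Eventually.of_forall fun y => by rw [H75.tr_app, one_mul]
  · exact Filter.Eventually.of_forall fun y => by rw [H75.tr_app, one_mul, one_mul]

/-- No commensurating action is proper. -/
theorem not_proper {k : ℕ} (n : Fin k → ℕ) (hk : 2 ≤ k) (hn : ∀ i, 1 < n i)
    (hi : LinearIndependent ℤ fun i => Real.log (n i))
    (hg : (Finset.univ.gcd fun i => n i - 1) = 1) (X : Type) (ρ : H75.TS n →* Equiv.Perm X)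
    (M : Set X) (hM : ∀ g, (symmDiff (ρ g '' M) M).Finite) :
    ∃ c : ℕ, {g | (symmDiff (ρ g '' M) M).ncard ≤ c}.Infinite := by
  obtain ⟨c, hc⟩ := rotations n hk hn hi hg X ρ M hM
  obtain ⟨C, hA, hL⟩ := H75.rowCtx k n hk hn hi hg
  refine ⟨c, fun hf => ?_⟩
  have h1 : ((fun x : ℝ => (x : UnitAddCircle)) '' (C.A ∩ Set.Ico 0 (0 + 1))).Finite := by
    refine (hf.image fun g : H75.TS n => g.1 ((0 : ℝ) : UnitAddCircle)).subset ?_
    rintro _ ⟨a, ⟨ha, -⟩, rfl⟩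
    have h2 := H75.circ_lift ⟨H75.tr a, (H75.Ctx.tr_mem_G ha).2⟩
    refine ⟨⟨_, Subgroup.subset_closure ⟨H75.tr a,
      hA ▸ hL ▸ (H75.rowLit C _).2 (H75.Ctx.tr_mem_G ha), h2⟩⟩, hc _ ⟨a, hA ▸ ha, h2⟩, ?_⟩
    exact (h2 0).trans (congrArg _ (zero_add a))
  have h3 := h1.of_finite_image fun x hx y hy e => (AddCircle.coe_eq_coe_iff_of_mem_Ico hx.2 hy.2).1 e
  obtain ⟨a, ha, a0, a1⟩ := C.dense (zero_lt_one' ℝ)
  obtain ⟨b, hb, hm⟩ := Set.exists_min_image _ id (h3.inter_of_left (Set.Ioi 0))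
    ⟨a, ⟨ha, a0.le, by linarith⟩, a0⟩
  obtain ⟨d, hd, d0, d1⟩ := C.dense hb.2
  exact (hm d ⟨⟨hd, d0.le, d1.trans hb.1.2.2⟩, d0⟩).not_gt d1

end Pool.Agent.Results.MP_3aea93_al.RelFW
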